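import Pool.Agent.Lib.DM.Pub.Pub
import Pool.Agent.Lib.DU.Defs

/-!
# MP_d0239a_nt: the final joint public form (`p = 2`, `p = 3`, all imaginary quadratic fields)

`d` is squarefree, `K = ℚ(√-d)`, `ℤ + ℤ ω₂` is the ring of integers of `K`.
-/

set_option autoImplicit false

noncomputable section

namespace Pool.Agent.MuP

open Pool.Agent.DN (SqN Ine OO Dk wC)

/-- **The joint theorem, from `ThmDK`, `ThmDT`, `ThmDN`, `ThmDR`, `ThmDM` and `ThmDU`.** Let `p` be `2` or `3`, `d`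
squarefree, `K = ℚ(√-d)`. Let `Λ = ℤ + ℤ ω₂` be the ring of integers of `K`, `F₀` a number field which is
contained in the field generated by `ω₂`, `j(Λ)` and the values of Weber's function at the nonzero torsion
points of `ℂ/Λ`, and `L / F₀` a finite Galois extension whose degree is a power of `p`. Then `X(F^cyc)` is
finitely generated over `ℤ_p` for all subfields `F` of `L`. -/
theorem weberFd_full (hK : DK.ThmDK) (hT : DT.ThmDT) (hN : DN.ThmDN) (hR : DR.ThmDR)
    (hM : DM.ThmDM) (hU : DM.DU.ThmDU) (l1 : DN.S_L1) (l2 : DN.S_L2) (b1 : DN.S_B1) (r1 : DS.S_R1)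
    (p d : ℕ) (hd : Squarefree d) (hp : p = 2 ∨ p = 3) (Λ : PeriodPair) (h1 : Λ.ω₁ = 1)
    (h2 : Λ.ω₂ = if d % 4 = 3 then (1 + √(d : ℝ) * Complex.I) / 2 else √(d : ℝ) * Complex.I)
    (ι : Omega →+* ℂ) (F F₀ L : Fd) (hL : IsNF L) (h0 : F₀ ≤ WeberFd ι Λ) (h0L : F₀ ≤ L)
    (hFL : F ≤ L) (hGal : GalOver F₀ L) (a : ℕ) (hdeg : deg L = p ^ a * deg F₀) :
    XFinGen p (cyc p F) := by
  by_cases h3 : p = 3 ∧ d % 3 = 0
  · obtain ⟨rfl, h3⟩ := h3
    have : Fact (Nat.Prime 3) := ⟨Nat.prime_three⟩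
    refine weberFd_ofW 3 l1 l2 b1 r1 d hd (fun n t hi hnt => ?_) Λ h1 h2 ι F F₀ L hL h0 h0L hFL hGal a
      hdeg
    have hDk : Dk n t % 3 = 0 := by
      rcases hnt with ⟨rfl, rfl, h4⟩ | ⟨rfl, rfl, h4⟩
      · have e : Dk ((d + 1) / 4) 1 = d := by
          unfold Dk
          omega
        rw [e]
        exact h3
      · have e : Dk n 0 = 4 * n := by
          unfold Dk
          omega
        rw [e]
        omega
    have hi3 : DM.DU.Ram3 n t :=
      { out := hi.out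
        nsp := by omega
        zero := hDk }
    exact hU n t
  · exact weberFd_all3 hK hT hN hR hM l1 l2 b1 r1 p d hd (by omega) Λ h1 h2 ι F F₀ L hL h0 h0L hFL
      hGal a hdeg

end Pool.Agent.MuP
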